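import Mathlib

namespace Pool.Agent.Results.MP_3bc6ef_co.NotMonotone

open Finset

/-- The `h`-fold signed sumset `h_± A`: all `∑ λ_a a` with `∑ |λ_a| = h` (sums over `a ∈ A`). -/
def signedSumset {n : ℕ} (h : ℕ) (A : Finset (ZMod n)) : Set (ZMod n) :=
  {x | ∃ c : ZMod n → ℤ, ∑ a ∈ A, |c a| = h ∧ x = ∑ a ∈ A, (c a : ZMod n) * a}

/-- `A` is `t`-independent in `Z_n`: `0 ∉ h_± A` for `1 ≤ h ≤ t`. -/
def IsIndep {n : ℕ} (t : ℕ) (A : Finset (ZMod n)) : Prop :=
  ∀ h : ℕ, 1 ≤ h → h ≤ t → (0 : ZMod n) ∉ signedSumset h A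

/-- `τ n t` is the maximum size of a `t`-independent set in `Z_n`. -/
noncomputable def τ (n t : ℕ) : ℕ :=
  sSup {m | ∃ A : Finset (ZMod n), IsIndep t A ∧ A.card = m}

/-- Statement Q1: for every even `t ≥ 2` the sequence `n ↦ τ n t` is monotone along odd `n`. -/
def Q1 : Prop :=
  ∀ t : ℕ, 2 ≤ t → Even t →
    MonotoneOn (fun n => τ n t) {n | Odd n} ∨ AntitoneOn (fun n => τ n t) {n | Odd n}

/-! ### The search in `Z_73` -/

/-- Cyclic shift by `k` of a set of residues modulo `73` (a bit mask). -/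
def rot (m k : ℕ) : ℕ := (m <<< k ||| m >>> (73 - k)) &&& 9444732965739290427391

/-- Bit mask of the residues modulo `73` of the sums `∑ v_i a_i` with `∑ |v_i| ≤ h`. -/
def ball : ℕ → List ℕ → ℕ
  | _, [] => 1
  | h, a :: L => (List.range (h + 1)).foldl (fun acc j =>
      acc ||| (rot (ball (h - j) L) (j * a % 73) ||| rot (ball (h - j) L) (j * (73 - a) % 73))) 0

/-- No relation of norm at most `4` involves `a` and elements of `L`. -/
def good (a : ℕ) (L : List ℕ) : Bool :=
  [1, 2, 3, 4].all fun j => !((ball (4 - j) L).testBit (j * a % 73))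

def search : Bool :=
  (List.range 37).all fun b => !(decide (1 < b) && good b [1]) ||
    (List.range 37).all fun c => !(decide (b < c) && good c [b, 1]) ||
      (List.range 37).all fun d => !(decide (c < d) && good d [c, b, 1]) ||
        (List.range 37).all fun e => !(decide (d < e) && good e [d, c, b, 1])

set_option maxRecDepth 100000 in
theorem search_true : search = true := by decide +kernel

/-! ### Soundness of the search -/

/-- `∑ v_i a_i` in `Z_73`. -/
def dot (v : List ℤ) (L : List ℕ) : ZMod 73 :=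
  (List.zipWith (fun (c : ℤ) (a : ℕ) => (c : ZMod 73) * (a : ZMod 73)) v L).sum

/-- `∑ |v_i|`. -/
def nrm (v : List ℤ) : ℕ := (v.map Int.natAbs).sum

lemma rot_spec {m k x : ℕ} (hk : k ≤ 73) (h : (rot m k).testBit x = true) :
    ∃ y, m.testBit y = true ∧ (x : ZMod 73) = (y : ZMod 73) + (k : ZMod 73) := by
  unfold rot at h
  rw [Nat.testBit_and, Nat.testBit_or, Nat.testBit_shiftLeft, Nat.testBit_shiftRight] at h
  simp only [Bool.and_eq_true, Bool.or_eq_true, decide_eq_true_eq] at h
  rcases h.1 with ⟨h1, h2⟩ | h1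
  · refine ⟨x - k, h2, ?_⟩
    rw [← Nat.cast_add, Nat.sub_add_cancel h1]
  · refine ⟨73 - k + x, h1, ?_⟩
    have : 73 - k + x + k = x + 73 := by omega
    rw [← Nat.cast_add, this, Nat.cast_add]
    have h73 : ((73 : ℕ) : ZMod 73) = 0 := ZMod.natCast_self 73
    rw [h73, add_zero]

lemma foldl_or_spec {α : Type} (l : List α) (f : α → ℕ) (z x : ℕ)
    (h : (l.foldl (fun acc j => acc ||| f j) z).testBit x = true) :
    z.testBit x = true ∨ ∃ j ∈ l, (f j).testBit x = true := by
  induction l generalizing z with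
  | nil => exact Or.inl h
  | cons a l ih =>
    rw [List.foldl_cons] at h
    rcases ih _ h with h1 | ⟨j, hj, h1⟩
    · rw [Nat.testBit_or, Bool.or_eq_true] at h1
      rcases h1 with h1 | h1
      · exact Or.inl h1
      · exact Or.inr ⟨a, by simp, h1⟩
    · exact Or.inr ⟨j, by simp [hj], h1⟩

lemma ball_spec (L : List ℕ) (hL : ∀ a ∈ L, a ≤ 73) (h x : ℕ)
    (hx : (ball h L).testBit x = true) :
    ∃ v : List ℤ, v.length = L.length ∧ nrm v ≤ h ∧ (x : ZMod 73) = dot v L := by
  induction L generalizing h x with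
  | nil =>
    refine ⟨[], rfl, Nat.zero_le _, ?_⟩
    have h0 : x = 0 := by
      unfold ball at hx
      by_contra h0
      have : (1 : ℕ).testBit x = false := by
        rw [Nat.testBit_eq_false_of_lt]
        exact Nat.one_lt_two_pow h0
      rw [this] at hx
      exact absurd hx (by decide)
    simp [h0, dot]
  | cons a L ih =>
    rw [ball] at hx
    have ha : a ≤ 73 := hL a (by simp)
    have hL' : ∀ a ∈ L, a ≤ 73 := fun b hb => hL b (by simp [hb])
    rcases foldl_or_spec _ _ _ _ hx with h1 | ⟨j, hj, h1⟩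
    · simp at h1
    · rw [List.mem_range] at hj
      rw [Nat.testBit_or, Bool.or_eq_true] at h1
      rcases h1 with h1 | h1
      · obtain ⟨y, hy, hxy⟩ := rot_spec (Nat.le_of_lt (Nat.mod_lt _ (by norm_num))) h1
        obtain ⟨v, hv1, hv2, hv3⟩ := ih hL' _ _ hy
        refine ⟨(j : ℤ) :: v, by simp [hv1], ?_, ?_⟩
        · simp only [nrm, List.map_cons, List.sum_cons, Int.natAbs_natCast] at hv2 ⊢
          omega
        · rw [hxy, hv3, ZMod.natCast_mod]
          simp only [dot, List.zipWith_cons_cons, List.sum_cons]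
          push_cast
          ring
      · obtain ⟨y, hy, hxy⟩ := rot_spec (Nat.le_of_lt (Nat.mod_lt _ (by norm_num))) h1
        obtain ⟨v, hv1, hv2, hv3⟩ := ih hL' _ _ hy
        refine ⟨(-(j : ℤ)) :: v, by simp [hv1], ?_, ?_⟩
        · simp only [nrm, List.map_cons, List.sum_cons, Int.natAbs_neg, Int.natAbs_natCast]
            at hv2 ⊢
          omega
        · rw [hxy, hv3, ZMod.natCast_mod]
          simp only [dot, List.zipWith_cons_cons, List.sum_cons]
          have h73 : ((73 : ℕ) : ZMod 73) = 0 := ZMod.natCast_self 73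
          push_cast [Nat.cast_sub ha]
          have h74 : (73 : ZMod 73) = 0 := by exact_mod_cast h73
          rw [h74]
          ring

/-- No nontrivial relation of norm at most `4` on the list. -/
def PL (L : List ℕ) : Prop :=
  ∀ v : List ℤ, v.length = L.length → 1 ≤ nrm v → nrm v ≤ 4 → dot v L ≠ 0

lemma PL_tail {a : ℕ} {L : List ℕ} (h : PL (a :: L)) : PL L := by
  intro v hv h1 h4 h0
  refine h (0 :: v) (by simp [hv]) (by simpa [nrm] using h1) (by simpa [nrm] using h4) ?_
  simp only [dot, List.zipWith_cons_cons, List.sum_cons] at h0 ⊢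
  rw [h0]
  simp

lemma PL_good {a : ℕ} {L : List ℕ} (hL : ∀ a ∈ L, a ≤ 73) (h : PL (a :: L)) :
    good a L = true := by
  unfold good
  rw [List.all_eq_true]
  intro j hj
  have hj' : 1 ≤ j ∧ j ≤ 4 := by
    simp only [List.mem_cons, List.not_mem_nil, or_false] at hj
    omega
  by_contra hc
  simp only [Bool.not_eq_true, Bool.not_eq_false'] at hc
  obtain ⟨v, hv1, hv2, hv3⟩ := ball_spec L hL _ _ hc
  refine h ((-(j : ℤ)) :: v) (by simp [hv1]) ?_ ?_ ?_
  · simp only [nrm, List.map_cons, List.sum_cons, Int.natAbs_neg, Int.natAbs_natCast]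
    omega
  · simp only [nrm, List.map_cons, List.sum_cons, Int.natAbs_neg, Int.natAbs_natCast] at hv2 ⊢
    omega
  · simp only [dot, List.zipWith_cons_cons, List.sum_cons] at hv3 ⊢
    rw [← hv3, ZMod.natCast_mod]
    push_cast
    ring

lemma search_sound {b c d e : ℕ} (h1 : 1 < b) (h2 : b < c) (h3 : c < d) (h4 : d < e)
    (h5 : e < 37) (hP : PL [e, d, c, b, 1]) : False := by
  have hs := search_true
  unfold search at hs
  have g4 : good e [d, c, b, 1] = true := by
    apply PL_good _ hP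
    intro a ha
    simp only [List.mem_cons, List.not_mem_nil, or_false] at ha
    omega
  have P3 := PL_tail hP
  have g3 : good d [c, b, 1] = true := by
    apply PL_good _ P3
    intro a ha
    simp only [List.mem_cons, List.not_mem_nil, or_false] at ha
    omega
  have P2 := PL_tail P3
  have g2 : good c [b, 1] = true := by
    apply PL_good _ P2
    intro a ha
    simp only [List.mem_cons, List.not_mem_nil, or_false] at ha
    omega
  have P1 := PL_tail P2
  have g1 : good b [1] = true := by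
    apply PL_good _ P1
    intro a ha
    simp only [List.mem_cons, List.not_mem_nil, or_false] at ha
    omega
  rw [List.all_eq_true] at hs
  have hb := hs b (by rw [List.mem_range]; omega)
  rw [g1] at hb
  simp only [h1, decide_true, Bool.and_self, Bool.not_true, Bool.false_or] at hb
  rw [List.all_eq_true] at hb
  have hc := hb c (by rw [List.mem_range]; omega)
  rw [g2] at hc
  simp only [h2, decide_true, Bool.and_self, Bool.not_true, Bool.false_or] at hc
  rw [List.all_eq_true] at hc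
  have hd := hc d (by rw [List.mem_range]; omega)
  rw [g3] at hd
  simp only [h3, decide_true, Bool.and_self, Bool.not_true, Bool.false_or] at hd
  rw [List.all_eq_true] at hd
  have he := hd e (by rw [List.mem_range]; omega)
  rw [g4] at he
  simp only [h4, decide_true, Bool.and_self, Bool.not_true] at he
  exact absurd he (by decide)

/-! ### No five elements in `Z_73` -/

/-- relations on five natural numbers -/
def PF (y : Fin 5 → ℕ) : Prop :=
  ∀ v : Fin 5 → ℤ, 1 ≤ ∑ i, |v i| → ∑ i, |v i| ≤ 4 →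
    ∑ i, (v i : ZMod 73) * (y i : ZMod 73) ≠ 0

lemma PF_sorted {y : Fin 5 → ℕ} (h : PF y) (h0 : y 0 = 1) (hlt : StrictMono y)
    (hle : ∀ i, y i < 37) : False := by
  have m1 : y 0 < y 1 := hlt (by decide)
  have m2 : y 1 < y 2 := hlt (by decide)
  have m3 : y 2 < y 3 := hlt (by decide)
  have m4 : y 3 < y 4 := hlt (by decide)
  rw [h0] at m1
  refine search_sound m1 m2 m3 m4 (hle 4) ?_
  intro v hv h1 h4 h5
  match v, hv with
  | [v4, v3, v2, v1, v0], _ =>
    refine h ![v0, v1, v2, v3, v4] ?_ ?_ ?_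
    · simp only [nrm, List.map_cons, List.map_nil, List.sum_cons, List.sum_nil] at h1
      simp only [Fin.sum_univ_five, Matrix.cons_val]
      zify at h1
      linarith
    · simp only [nrm, List.map_cons, List.map_nil, List.sum_cons, List.sum_nil] at h4
      simp only [Fin.sum_univ_five, Matrix.cons_val]
      zify at h4
      linarith
    · simp only [dot, List.zipWith_cons_cons, List.zipWith_nil_left, List.sum_cons,
        List.sum_nil, Nat.cast_one] at h5
      simp only [Fin.sum_univ_five, Matrix.cons_val]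
      rw [h0]
      linear_combination h5

lemma neg_one_73 : (-1 : ZMod 73) = ((72 : ℕ) : ZMod 73) := by decide

lemma no_five (x : Fin 5 → ZMod 73)
    (h : ∀ v : Fin 5 → ℤ, 1 ≤ ∑ i, |v i| → ∑ i, |v i| ≤ 4 → ∑ i, (v i : ZMod 73) * x i ≠ 0) :
    False := by
  have : Fact (Nat.Prime 73) := ⟨by norm_num⟩
  -- the element `x 0` is invertible
  have hx0 : x 0 ≠ 0 := by
    intro hx0
    refine h (Pi.single 0 1) ?_ ?_ ?_
    · simp [Fin.sum_univ_five]
    · simp [Fin.sum_univ_five]
    · simp [Fin.sum_univ_five, hx0]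
  -- representatives up to sign
  have hrep : ∀ z : ZMod 73, ∃ (y : ℕ) (s : ℤ), y < 37 ∧ |s| = 1 ∧
      (y : ZMod 73) = (s : ZMod 73) * z := by
    intro z
    refine ⟨z.valMinAbs.natAbs, if 0 ≤ z.valMinAbs then 1 else -1, ?_, ?_, ?_⟩
    · have := ZMod.natAbs_valMinAbs_le z
      omega
    · split_ifs <;> simp
    · have hz := ZMod.coe_valMinAbs z
      split_ifs with hs
      · have : ((z.valMinAbs.natAbs : ℕ) : ZMod 73) = ((z.valMinAbs : ℤ) : ZMod 73) := by
          rw [← Int.cast_natCast, Int.natAbs_of_nonneg hs]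
        rw [this, hz, Int.cast_one, one_mul]
      · have h2 : (z.valMinAbs.natAbs : ℤ) = - z.valMinAbs :=
          Int.ofNat_natAbs_of_nonpos (le_of_not_ge hs)
        have : ((z.valMinAbs.natAbs : ℕ) : ZMod 73) = ((- z.valMinAbs : ℤ) : ZMod 73) := by
          rw [← Int.cast_natCast, h2]
        rw [this, Int.cast_neg, hz, Int.cast_neg, Int.cast_one, neg_one_mul]
  choose y s hy hs hys using fun i => hrep ((x 0)⁻¹ * x i)
  have hPF : PF y := by
    intro v h1 h4 h5
    refine h (fun i => v i * s i) ?_ ?_ ?_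
    · simpa [abs_mul, hs] using h1
    · simpa [abs_mul, hs] using h4
    · have h6 : ∑ i, (v i : ZMod 73) * (y i : ZMod 73)
          = (x 0)⁻¹ * ∑ i, ((v i * s i : ℤ) : ZMod 73) * x i := by
        rw [Finset.mul_sum]
        refine Finset.sum_congr rfl fun i _ => ?_
        rw [hys i]
        push_cast
        ring
      rw [h6] at h5
      rcases mul_eq_zero.mp h5 with h7 | h7
      · exact absurd h7 (inv_ne_zero hx0)
      · exact h7
  have hinj : Function.Injective y := by
    intro i j hij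
    by_contra hne
    refine hPF (Pi.single i 1 - Pi.single j 1) ?_ ?_ ?_
    · have : ∀ i j : Fin 5, i ≠ j →
          1 ≤ ∑ l, |(Pi.single i 1 - Pi.single j 1 : Fin 5 → ℤ) l| := by decide
      exact this i j hne
    · have : ∀ i j : Fin 5, i ≠ j →
          ∑ l, |(Pi.single i 1 - Pi.single j 1 : Fin 5 → ℤ) l| ≤ 4 := by decide
      exact this i j hne
    · simp only [Pi.sub_apply, Int.cast_sub, sub_mul, Finset.sum_sub_distrib, Pi.single_apply]
      simp [hij]
  have hy0 : y 0 = 1 := by
    have h1 := hys 0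
    rw [inv_mul_cancel₀ hx0, mul_one] at h1
    have h2 := hy 0
    have h3 := hs 0
    rcases eq_or_eq_neg_of_abs_eq h3 with h4 | h4
    · rw [h4] at h1
      have h5 : ((y 0 : ℕ) : ZMod 73) = ((1 : ℕ) : ZMod 73) := by
        rw [h1]
        simp
      have h6 := (ZMod.natCast_eq_natCast_iff' _ _ _).mp h5
      omega
    · rw [h4] at h1
      have h5 : ((y 0 : ℕ) : ZMod 73) = ((72 : ℕ) : ZMod 73) := by
        rw [h1, Int.cast_neg, Int.cast_one]
        exact neg_one_73
      have h6 := (ZMod.natCast_eq_natCast_iff' _ _ _).mp h5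
      omega
  have hpos : ∀ i, 1 ≤ y i := by
    intro i
    by_contra hc
    have h0 : y i = 0 := by omega
    refine hPF (Pi.single i 1) ?_ ?_ ?_
    · have : ∀ i : Fin 5, 1 ≤ ∑ l, |(Pi.single i 1 : Fin 5 → ℤ) l| := by decide
      exact this i
    · have : ∀ i : Fin 5, ∑ l, |(Pi.single i 1 : Fin 5 → ℤ) l| ≤ 4 := by decide
      exact this i
    · simp only [Pi.single_apply]
      simp [h0]
  -- sort
  let σ := Tuple.sort y
  have hmono : Monotone (y ∘ σ) := Tuple.monotone_sort y
  have hstrict : StrictMono (y ∘ σ) := hmono.strictMono_of_injective (hinj.comp σ.injective)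
  refine PF_sorted (y := y ∘ σ) ?_ ?_ hstrict (fun i => hy (σ i))
  · intro v h1 h4 h5
    refine hPF (v ∘ σ.symm) ?_ ?_ ?_
    · have : ∑ i, |(v ∘ σ.symm) i| = ∑ i, |v i| :=
        Equiv.sum_comp σ.symm (fun i => |v i|)
      rw [this]
      exact h1
    · have : ∑ i, |(v ∘ σ.symm) i| = ∑ i, |v i| :=
        Equiv.sum_comp σ.symm (fun i => |v i|)
      rw [this]
      exact h4
    · rw [← h5, ← Equiv.sum_comp σ]
      simp
  · have h1 : (y ∘ σ) 0 ≤ (y ∘ σ) (σ.symm 0) := hmono (Fin.zero_le _)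
    simp only [Function.comp_apply, Equiv.apply_symm_apply] at h1
    rw [hy0] at h1
    have h2 := hpos (σ 0)
    simp only [Function.comp_apply]
    omega

/-! ### The values of `τ` -/

lemma τ_bdd (n t : ℕ) [NeZero n] :
    BddAbove {m | ∃ A : Finset (ZMod n), IsIndep t A ∧ A.card = m} := by
  refine ⟨Fintype.card (ZMod n), ?_⟩
  rintro m ⟨A, -, rfl⟩
  exact Finset.card_le_univ A

lemma τ_73 : τ 73 4 ≤ 4 := by
  unfold τ
  refine csSup_le ⟨0, ∅, ?_, rfl⟩ ?_
  · intro h h1 _ h0
    obtain ⟨c, hc, -⟩ := h0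
    simp at hc
    omega
  · rintro m ⟨A, hA, rfl⟩
    by_contra hc
    obtain ⟨B, hB, hcard⟩ := Finset.exists_subset_card_eq (show 5 ≤ A.card by omega)
    let e : Fin 5 ≃ B := (Finset.equivFinOfCardEq hcard).symm
    refine no_five (fun i => (e i : ZMod 73)) ?_
    intro v h1 h4 h0
    have hnn : 0 ≤ ∑ i, |v i| := Finset.sum_nonneg fun i _ => abs_nonneg _
    refine hA (∑ i, |v i|).toNat (by omega) (by omega) ?_
    refine ⟨fun a => if ha : a ∈ B then v (e.symm ⟨a, ha⟩) else 0, ?_, ?_⟩
    · rw [Int.toNat_of_nonneg hnn]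
      rw [← Finset.sum_subset hB (fun x _ hx => by simp [hx])]
      rw [← Finset.sum_coe_sort B, ← Equiv.sum_comp e]
      simp
    · rw [← Finset.sum_subset hB (fun x _ hx => by simp [hx])]
      rw [← Finset.sum_coe_sort B, ← Equiv.sum_comp e]
      simpa using h0.symm

/-- distance to `4` -/
def w (a : ℕ) : ℕ := (a - 4) + (4 - a)

def check71 : Bool :=
  (List.range 9).all fun a => (List.range 9).all fun b => !(decide (w a + w b ≤ 4)) ||
    (List.range 9).all fun c => !(decide (w a + w b + w c ≤ 4)) ||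
      (List.range 9).all fun d => !(decide (w a + w b + w c + w d ≤ 4)) ||
        (List.range 9).all fun e => !(decide (w a + w b + w c + w d + w e ≤ 4)) ||
          !(decide ((a + 4 * b + 11 * c + 17 * d + 31 * e) % 71 = 43)) ||
            decide (a = 4 ∧ b = 4 ∧ c = 4 ∧ d = 4 ∧ e = 4)

set_option maxRecDepth 100000 in
lemma check71_true : check71 = true := by decide +kernel

lemma check71_spec {a b c d e : ℕ} (ha : a < 9) (hb : b < 9) (hc : c < 9) (hd : d < 9) (he : e < 9)
    (h : w a + w b + w c + w d + w e ≤ 4)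
    (h43 : (a + 4 * b + 11 * c + 17 * d + 31 * e) % 71 = 43) :
    a = 4 ∧ b = 4 ∧ c = 4 ∧ d = 4 ∧ e = 4 := by
  have hs := check71_true
  unfold check71 at hs
  rw [List.all_eq_true] at hs
  have s1 := hs a (List.mem_range.mpr ha)
  rw [List.all_eq_true] at s1
  have s2 := s1 b (List.mem_range.mpr hb)
  have k2 : w a + w b ≤ 4 := by omega
  simp only [k2, decide_true, Bool.not_true, Bool.false_or] at s2
  rw [List.all_eq_true] at s2
  have s3 := s2 c (List.mem_range.mpr hc)
  have k3 : w a + w b + w c ≤ 4 := by omega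
  simp only [k3, decide_true, Bool.not_true, Bool.false_or] at s3
  rw [List.all_eq_true] at s3
  have s4 := s3 d (List.mem_range.mpr hd)
  have k4 : w a + w b + w c + w d ≤ 4 := by omega
  simp only [k4, decide_true, Bool.not_true, Bool.false_or] at s4
  rw [List.all_eq_true] at s4
  have s5 := s4 e (List.mem_range.mpr he)
  simp only [h, h43, decide_true, Bool.not_true, Bool.false_or] at s5
  exact of_decide_eq_true s5

/-- The set `{1, 4, 11, 17, 31}` in `Z_71`. -/
def A71 : Finset (ZMod 71) := {1, 4, 11, 17, 31}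

lemma A71_card : A71.card = 5 := by decide

lemma A71_sum {M : Type} [AddCommMonoid M] (f : ZMod 71 → M) :
    ∑ a ∈ A71, f a = f 1 + (f 4 + (f 11 + (f 17 + f 31))) := by
  unfold A71
  rw [Finset.sum_insert (by decide), Finset.sum_insert (by decide), Finset.sum_insert (by decide),
    Finset.sum_insert (by decide), Finset.sum_singleton]

lemma bnd (z : ℤ) (h : z.natAbs ≤ 4) :
    (z + 4).toNat < 9 ∧ w (z + 4).toNat = z.natAbs ∧ ((z + 4).toNat : ℤ) = z + 4 ∧
      ((z + 4).toNat = 4 → z = 0) := by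
  unfold w
  omega

lemma int71 {c1 c2 c3 c4 c5 : ℤ} {h : ℕ} (h1 : 1 ≤ h) (h4 : h ≤ 4)
    (hc : (c1.natAbs : ℤ) + (c2.natAbs + (c3.natAbs + (c4.natAbs + c5.natAbs))) = h)
    (hdvd : (71 : ℤ) ∣ c1 + 4 * c2 + 11 * c3 + 17 * c4 + 31 * c5) : False := by
  have hn : c1.natAbs + (c2.natAbs + (c3.natAbs + (c4.natAbs + c5.natAbs))) = h := by
    exact_mod_cast hc
  clear hc
  have t : c1.natAbs ≤ 4 ∧ c2.natAbs ≤ 4 ∧ c3.natAbs ≤ 4 ∧ c4.natAbs ≤ 4 ∧ c5.natAbs ≤ 4 := by
    clear hdvd
    generalize c1.natAbs = m1 at hn ⊢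
    generalize c2.natAbs = m2 at hn ⊢
    generalize c3.natAbs = m3 at hn ⊢
    generalize c4.natAbs = m4 at hn ⊢
    generalize c5.natAbs = m5 at hn ⊢
    omega
  obtain ⟨t1, t2, t3, t4, t5⟩ := t
  obtain ⟨b1, w1, e1, z1⟩ := bnd c1 t1
  obtain ⟨b2, w2, e2, z2⟩ := bnd c2 t2
  obtain ⟨b3, w3, e3, z3⟩ := bnd c3 t3
  obtain ⟨b4, w4, e4, z4⟩ := bnd c4 t4
  obtain ⟨b5, w5, e5, z5⟩ := bnd c5 t5
  have hm : ((c1 + 4).toNat + 4 * (c2 + 4).toNat + 11 * (c3 + 4).toNat + 17 * (c4 + 4).toNat +
      31 * (c5 + 4).toNat) % 71 = 43 := by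
    obtain ⟨q, hq⟩ := hdvd
    zify
    rw [e1, e2, e3, e4, e5]
    have : c1 + 4 + 4 * (c2 + 4) + 11 * (c3 + 4) + 17 * (c4 + 4) + 31 * (c5 + 4)
        = 43 + 71 * (q + 3) := by linarith
    rw [this, Int.add_mul_emod_self_left]
    norm_num
  obtain ⟨k1, k2, k3, k4, k5⟩ := check71_spec b1 b2 b3 b4 b5 (by linarith) hm
  rw [z1 k1, z2 k2, z3 k3, z4 k4, z5 k5] at hn
  simp at hn
  omega

lemma A71_indep : IsIndep 4 A71 := by
  intro h h1 h4 h0
  obtain ⟨c, hc, hz⟩ := h0
  rw [A71_sum] at hc hz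
  simp only [Int.abs_eq_natAbs] at hc
  refine int71 h1 h4 hc ?_
  have : ((c 1 + 4 * c 4 + 11 * c 11 + 17 * c 17 + 31 * c 31 : ℤ) : ZMod 71) = 0 := by
    rw [hz]
    push_cast
    ring
  exact (ZMod.intCast_zmod_eq_zero_iff_dvd _ 71).mp this

lemma τ_71 : 5 ≤ τ 71 4 := by
  unfold τ
  exact le_csSup (τ_bdd 71 4) ⟨A71, A71_indep, A71_card⟩

lemma τ_1 : τ 1 4 ≤ 0 := by
  unfold τ
  refine csSup_le ⟨0, ∅, ?_, rfl⟩ ?_
  · intro h h1 _ h0
    obtain ⟨c, hc, -⟩ := h0
    simp at hc
    omega
  · rintro m ⟨A, hA, rfl⟩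
    by_contra hc
    have hne : A.Nonempty := by
      rw [← Finset.card_pos]
      omega
    obtain ⟨a, ha⟩ := hne
    refine hA 1 le_rfl (by norm_num) ⟨Pi.single a 1, ?_, ?_⟩
    · rw [Finset.sum_eq_single a]
      · simp
      · intro b _ hb
        simp [hb]
      · intro h
        exact absurd ha h
    · exact Subsingleton.elim _ _

/-- The largest `4`-independent sets have at least `5` elements in `Z_71` but at most `4` in
`Z_73`, so `n ↦ τ n 4` is not monotone along odd `n`, and Q1 fails. -/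
theorem result : 5 ≤ τ 71 4 ∧ τ 73 4 ≤ 4 ∧
    ¬ MonotoneOn (fun n => τ n 4) {n | Odd n} ∧ ¬ AntitoneOn (fun n => τ n 4) {n | Odd n} ∧
    ¬ Q1 := by
  have hm : ¬ MonotoneOn (fun n => τ n 4) {n | Odd n} := by
    intro h
    have := h (show Odd 71 by decide) (show Odd 73 by decide) (by norm_num)
    have h1 := τ_71
    have h2 := τ_73
    simp only at this
    omega
  have ha : ¬ AntitoneOn (fun n => τ n 4) {n | Odd n} := by
    intro h
    have := h (show Odd 1 by decide) (show Odd 71 by decide) (by norm_num)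
    have h1 := τ_71
    have h2 := τ_1
    simp only at this
    omega
  refine ⟨τ_71, τ_73, hm, ha, fun h => ?_⟩
  rcases h 4 (by norm_num) (by decide) with h1 | h1
  · exact hm h1
  · exact ha h1

end Pool.Agent.Results.MP_3bc6ef_co.NotMonotone
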